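import Pool.Agent.Work.P57M.COR2B

/-!
MP_57720d_nt: the parities of the number `a(n)` of partitions of `n` with no part `≡ 3 (mod 6)` on
the progressions `Am+B`, `4 ∣ A`, `B ≡ 0, 1 (mod 4)`, `0 ≤ B < A`: all the generating functions modulo
`2` are linearly independent, together with `1`, over the algebraic functions over `𝔽₂(X)`, and every
finite sum of values on different progressions (shifts included) has both parities infinitely often.
-/

set_option autoImplicit false

namespace Pool.Agent.Results.MP_57720d_nt.FullIndependence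

/-- `a(n)`: the number of partitions of `n` with no part `≡ 3 (mod 6)` -/
def a (n : ℕ) : ℕ := (Finset.univ.filter fun p : n.Partition => ∀ i ∈ p.parts, i % 6 ≠ 3).card

/-- Let `I` be a finite set of pairs `(A, B)` with `A ≥ 1`, `4 ∣ A` and `B ≡ 0` or `1 (mod 4)`.
(1) If `B < A` for all pairs of `I` then the power series `∑_m a(Am+B) X^m` over `𝔽₂`, `(A, B) ∈ I`,
and `1` are linearly independent over the algebraic functions: a combination
`∑_I c_{A,B} ∑_m a(Am+B) X^m`, in which the `c_{A,B}` are power series algebraic over `𝔽₂(X)`, is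
algebraic only if all `c_{A,B}` are zero.
(2) If `I` is not empty then `∑_I a(Am+B)` is odd for infinitely many `m` and even for infinitely many
`m`. -/
theorem result (I : Finset (ℕ × ℕ))
    (hI : ∀ p ∈ I, 1 ≤ p.1 ∧ 4 ∣ p.1 ∧ (p.2 % 4 = 0 ∨ p.2 % 4 = 1)) :
    ((∀ p ∈ I, p.2 < p.1) → ∀ c : ℕ × ℕ → PowerSeries (ZMod 2),
      (∀ p ∈ I, IsAlgebraic (Polynomial (ZMod 2)) (c p)) →
      IsAlgebraic (Polynomial (ZMod 2))
        (∑ p ∈ I, c p * PowerSeries.mk fun m => (a (p.1 * m + p.2) : ZMod 2)) →
      ∀ p ∈ I, c p = 0) ∧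
    (I.Nonempty → {m : ℕ | Odd (∑ p ∈ I, a (p.1 * m + p.2))}.Infinite ∧
      {m : ℕ | Even (∑ p ∈ I, a (p.1 * m + p.2))}.Infinite) := by
  refine ⟨?_, ?_⟩
  · intro hlt c hc h
    exact Pool.Agent.Work.P57.LI.indep2' I hI hlt c hc h
  · intro hne
    exact Pool.Agent.Work.P57.LI.shift_parity2 I hne hI

end Pool.Agent.Results.MP_57720d_nt.FullIndependence
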