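import Pool.Agent.Work.P57M.COR2B

/-!
MP_57720d_nt: the parities of the number `a(n)` of partitions of `n` with no part `≡ 3 (mod 6)` on
the progressions `Am+B`, `4 ∣ A`, `B ≡ 0, 1 (mod 4)`: the series `∑_m a(Am+B) X^(nm)` with different
`n` are linearly independent, so no Mahler equation holds, in any base.
-/

set_option autoImplicit false

namespace Pool.Agent.Results.MP_57720d_nt.MahlerIndependence

open PowerSeries

/-- `a(n)`: the number of partitions of `n` with no part `≡ 3 (mod 6)` -/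
def a (n : ℕ) : ℕ := (Finset.univ.filter fun p : n.Partition => ∀ i ∈ p.parts, i % 6 ≠ 3).card

/-- `∑_m a(Am+B) X^(nm)` over `𝔽₂`, for `p = (A, B, n)` -/
noncomputable def G (p : ℕ × ℕ × ℕ) : PowerSeries (ZMod 2) :=
  PowerSeries.mk fun e => if p.2.2 ∣ e then (a (p.1 * (e / p.2.2) + p.2.1) : ZMod 2) else 0

theorem a_eq (n : ℕ) : a n = Pool.Agent.Work.P57.pa n := rfl

noncomputable def cmp (L s : ℕ) : PowerSeries (ZMod 2) →+ PowerSeries (ZMod 2) where
  toFun f := PowerSeries.mk fun t => PowerSeries.coeff (L * t + s) f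
  map_zero' := by ext t; simp
  map_add' f g := by ext t; simp

theorem coeff_cmp (L s t : ℕ) (f : PowerSeries (ZMod 2)) :
    PowerSeries.coeff t (cmp L s f) = PowerSeries.coeff (L * t + s) f := by
  show PowerSeries.coeff t (PowerSeries.mk fun t => PowerSeries.coeff (L * t + s) f) = _
  rw [PowerSeries.coeff_mk]

noncomputable def ev (L : ℕ) (f : PowerSeries (ZMod 2)) : PowerSeries (ZMod 2) :=
  PowerSeries.mk fun e => if L ∣ e then PowerSeries.coeff (e / L) f else 0

theorem cmp_mul (L s : ℕ) (hL : 0 < L) (hs : s < L) (f g : PowerSeries (ZMod 2)) :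
    cmp L s (f * ev L g) = cmp L s f * g := by
  ext t
  rw [coeff_cmp, PowerSeries.coeff_mul, PowerSeries.coeff_mul]
  have h1 : ∀ x ∈ Finset.HasAntidiagonal.antidiagonal (L * t + s), PowerSeries.coeff x.1 f *
      PowerSeries.coeff x.2 (ev L g) = if L ∣ x.2 then PowerSeries.coeff x.1 f *
      PowerSeries.coeff (x.2 / L) g else 0 := by
    intro x _
    unfold ev
    rw [PowerSeries.coeff_mk]
    split_ifs
    · rfl
    · rw [mul_zero]
  rw [Finset.sum_congr rfl h1, ← Finset.sum_filter]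
  refine Finset.sum_nbij' (fun x => (x.1 / L, x.2 / L)) (fun x => (L * x.1 + s, L * x.2))
    ?_ ?_ ?_ ?_ ?_
  · rintro ⟨x, y⟩ hx
    simp only [Finset.mem_filter, Finset.HasAntidiagonal.mem_antidiagonal] at hx ⊢
    obtain ⟨h, v, rfl⟩ := hx
    rw [Nat.mul_div_cancel_left _ hL]
    have hv : v ≤ t := by
      by_contra hv
      have : L * (t + 1) ≤ L * v := Nat.mul_le_mul_left _ (by omega)
      rw [Nat.mul_add] at this
      omega
    obtain ⟨u, rfl⟩ := Nat.exists_eq_add_of_le hv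
    have hx : x = L * u + s := by
      rw [Nat.mul_add] at h
      omega
    rw [hx, Nat.mul_add_div hL, Nat.div_eq_of_lt hs]
    omega
  · rintro ⟨u, v⟩ hx
    simp only [Finset.mem_filter, Finset.HasAntidiagonal.mem_antidiagonal] at hx ⊢
    refine ⟨?_, Dvd.intro _ rfl⟩
    rw [← hx, Nat.mul_add]
    omega
  · rintro ⟨x, y⟩ hx
    simp only [Finset.mem_filter, Finset.HasAntidiagonal.mem_antidiagonal] at hx ⊢
    obtain ⟨h, v, rfl⟩ := hx
    rw [Nat.mul_div_cancel_left _ hL]
    have hv : v ≤ t := by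
      by_contra hv
      have : L * (t + 1) ≤ L * v := Nat.mul_le_mul_left _ (by omega)
      rw [Nat.mul_add] at this
      omega
    obtain ⟨u, rfl⟩ := Nat.exists_eq_add_of_le hv
    have hx : x = L * u + s := by
      rw [Nat.mul_add] at h
      omega
    rw [hx, Nat.mul_add_div hL, Nat.div_eq_of_lt hs, Nat.add_zero]
  · rintro ⟨u, v⟩ hx
    simp only
    rw [Nat.mul_add_div hL, Nat.div_eq_of_lt hs, Nat.mul_div_cancel_left _ hL, Nat.add_zero]
  · rintro ⟨x, y⟩ hx
    simp only [Finset.mem_filter, Finset.HasAntidiagonal.mem_antidiagonal] at hx ⊢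
    obtain ⟨h, v, rfl⟩ := hx
    rw [Nat.mul_div_cancel_left _ hL, coeff_cmp]
    have hv : v ≤ t := by
      by_contra hv
      have : L * (t + 1) ≤ L * v := Nat.mul_le_mul_left _ (by omega)
      rw [Nat.mul_add] at this
      omega
    obtain ⟨u, rfl⟩ := Nat.exists_eq_add_of_le hv
    have hx : x = L * u + s := by
      rw [Nat.mul_add] at h
      omega
    rw [hx, Nat.mul_add_div hL, Nat.div_eq_of_lt hs, Nat.add_zero]

theorem G_eq (A B n l : ℕ) (hn : 0 < n) (hl : 0 < l) :
    G (A, B, n) = ∑ j ∈ Finset.range l, (PowerSeries.X : PowerSeries (ZMod 2)) ^ (n * j) *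
      ev (n * l) (Pool.Agent.Work.P57.LI.F (A * l, A * j + B)) := by
  ext e
  rw [map_sum]
  have h1 : ∀ j ∈ Finset.range l, PowerSeries.coeff e
      ((PowerSeries.X : PowerSeries (ZMod 2)) ^ (n * j) *
      ev (n * l) (Pool.Agent.Work.P57.LI.F (A * l, A * j + B))) =
      if n * j ≤ e then (if n * l ∣ e - n * j then
        (Pool.Agent.Work.P57.pa (A * l * ((e - n * j) / (n * l)) + (A * j + B)) : ZMod 2)
        else 0) else 0 := by
    intro j _
    rw [PowerSeries.coeff_X_pow_mul']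
    unfold ev Pool.Agent.Work.P57.LI.F
    rw [PowerSeries.coeff_mk, PowerSeries.coeff_mk]
  rw [Finset.sum_congr rfl h1]
  unfold G
  rw [PowerSeries.coeff_mk]
  simp only
  by_cases hne : n ∣ e
  · rw [if_pos hne]
    obtain ⟨m, rfl⟩ := hne
    rw [Nat.mul_div_cancel_left _ hn]
    rw [Finset.sum_eq_single (m % l)]
    · have hle : m % l ≤ m := Nat.mod_le _ _
      rw [if_pos (Nat.mul_le_mul_left _ hle), ← Nat.mul_sub]
      have h2 : m - m % l = l * (m / l) := by
        have := Nat.div_add_mod m l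
        omega
      rw [h2, if_pos (by rw [← Nat.mul_assoc]; exact Dvd.intro _ rfl), ← Nat.mul_assoc,
        Nat.mul_div_cancel_left _ (Nat.mul_pos hn hl), a_eq]
      congr 2
      have := Nat.div_add_mod m l
      calc A * m + B = A * (l * (m / l) + m % l) + B := by rw [this]
        _ = _ := by ring
    · intro j hj hne
      rw [Finset.mem_range] at hj
      split_ifs with h3 h4
      · exfalso
        apply hne
        have h5 : j ≤ m := Nat.le_of_mul_le_mul_left h3 hn
        rw [← Nat.mul_sub] at h4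
        have h6 : l ∣ m - j := Nat.dvd_of_mul_dvd_mul_left hn h4
        obtain ⟨v, hv⟩ := h6
        have h7 : m = l * v + j := by omega
        rw [h7, Nat.mul_add_mod, Nat.mod_eq_of_lt hj]
      · rfl
      · rfl
    · intro h
      exact absurd (Finset.mem_range.2 (Nat.mod_lt _ hl)) h
  · rw [if_neg hne]
    symm
    apply Finset.sum_eq_zero
    intro j _
    split_ifs with h3 h4
    · exfalso
      apply hne
      have h5 : n ∣ e - n * j := dvd_trans (Dvd.intro _ rfl) h4
      have h6 : e = (e - n * j) + n * j := by omega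
      rw [h6]
      exact dvd_add h5 (Dvd.intro _ rfl)
    · rfl
    · rfl

theorem cmp_alg (L s : ℕ) (hL : 0 < L) (P : Polynomial (ZMod 2)) :
    IsAlgebraic (Polynomial (ZMod 2)) (cmp L s (P : PowerSeries (ZMod 2))) := by
  have h : cmp L s (P : PowerSeries (ZMod 2)) = algebraMap (Polynomial (ZMod 2))
      (PowerSeries (ZMod 2)) (∑ t ∈ Finset.range (P.natDegree + 1),
        Polynomial.monomial t (P.coeff (L * t + s))) := by
    ext t
    rw [coeff_cmp, Polynomial.coeff_coe]
    show _ = PowerSeries.coeff t (((∑ t ∈ Finset.range (P.natDegree + 1),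
        Polynomial.monomial t (P.coeff (L * t + s)) : Polynomial (ZMod 2))) :
          PowerSeries (ZMod 2))
    rw [Polynomial.coeff_coe, Polynomial.finsetSum_coeff]
    simp only [Polynomial.coeff_monomial]
    rw [Finset.sum_ite_eq' (Finset.range (P.natDegree + 1)) t]
    split_ifs with h1
    · rfl
    · rw [Finset.mem_range] at h1
      apply Polynomial.coeff_eq_zero_of_natDegree_lt
      have : 1 * t ≤ L * t := Nat.mul_le_mul_right _ hL
      omega
  rw [h]
  exact isAlgebraic_algebraMap _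

/-- Let `I` be a finite set of triples `(A, B, n)` with `A ≥ 1`, `4 ∣ A`, `B ≡ 0` or `1 (mod 4)`,
`B < A`, `n ≥ 1`, such that `n / A = n' / A'` only for `A = A'`. The power series
`∑_m a(Am+B) X^(nm)` over `𝔽₂`, `(A, B, n) ∈ I`, and `1` are linearly independent over the rational
functions `𝔽₂(X)`. -/
theorem result (I : Finset (ℕ × ℕ × ℕ))
    (hI : ∀ p ∈ I, 1 ≤ p.1 ∧ 4 ∣ p.1 ∧ (p.2.1 % 4 = 0 ∨ p.2.1 % 4 = 1) ∧ p.2.1 < p.1 ∧ 1 ≤ p.2.2)
    (hlev : ∀ p ∈ I, ∀ q ∈ I, p.2.2 * q.1 = q.2.2 * p.1 → p.1 = q.1)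
    (c : ℕ × ℕ × ℕ → Polynomial (ZMod 2)) (d : Polynomial (ZMod 2))
    (h : ∑ p ∈ I, (c p : PowerSeries (ZMod 2)) * G p = d) : ∀ p ∈ I, c p = 0 := by
  classical
  set L := ∏ p ∈ I, p.2.2 with hLdef
  have hL : 0 < L := Finset.prod_pos fun p hp => (hI p hp).2.2.2.2
  have hdvd : ∀ p ∈ I, p.2.2 * (L / p.2.2) = L := fun p hp =>
    Nat.mul_div_cancel' (Finset.dvd_prod_of_mem (fun p => p.2.2) hp)
  have hlpos : ∀ p ∈ I, 0 < L / p.2.2 := by
    intro p hp
    rcases Nat.eq_zero_or_pos (L / p.2.2) with h0 | h0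
    · have := hdvd p hp
      rw [h0, Nat.mul_zero] at this
      omega
    · exact h0
  set S : Finset (Σ _ : ℕ × ℕ × ℕ, ℕ) := I.sigma fun p => Finset.range (L / p.2.2) with hS
  set φ : (Σ _ : ℕ × ℕ × ℕ, ℕ) → ℕ × ℕ := fun x =>
    (x.1.1 * (L / x.1.2.2), x.1.1 * x.2 + x.1.2.1) with hφ
  have hinj : Set.InjOn φ (S : Set (Σ _ : ℕ × ℕ × ℕ, ℕ)) := by
    rintro ⟨p, j⟩ hx ⟨q, i⟩ hy hxy
    rw [Finset.mem_coe, hS, Finset.mem_sigma, Finset.mem_range] at hx hy
    simp only at hx hy
    simp only [hφ, Prod.mk.injEq] at hxy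
    obtain ⟨e1, e2⟩ := hxy
    have e3 : p.1 = q.1 := by
      apply hlev p hx.1 q hy.1
      apply Nat.eq_of_mul_eq_mul_right hL
      calc p.2.2 * q.1 * L = p.2.2 * q.1 * (q.2.2 * (L / q.2.2)) := by rw [hdvd q hy.1]
        _ = p.2.2 * q.2.2 * (q.1 * (L / q.2.2)) := by ring
        _ = p.2.2 * q.2.2 * (p.1 * (L / p.2.2)) := by rw [e1]
        _ = q.2.2 * p.1 * (p.2.2 * (L / p.2.2)) := by ring
        _ = q.2.2 * p.1 * L := by rw [hdvd p hx.1]
    have hA : 0 < p.1 := (hI p hx.1).1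
    have e4 : L / p.2.2 = L / q.2.2 := by
      rw [← e3] at e1
      exact Nat.eq_of_mul_eq_mul_left hA e1
    have e5 : p.2.2 = q.2.2 := by
      apply Nat.eq_of_mul_eq_mul_right (hlpos p hx.1)
      rw [hdvd p hx.1, e4, hdvd q hy.1]
    have hB1 := (hI p hx.1).2.2.2.1
    have hB2 := (hI q hy.1).2.2.2.1
    rw [← e3] at e2 hB2
    have e6 : p.2.1 = q.2.1 := by
      have := congrArg (fun z => z % p.1) e2
      simp only [Nat.mul_add_mod, Nat.mod_eq_of_lt hB1, Nat.mod_eq_of_lt hB2] at this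
      exact this
    rw [e6] at e2
    have e7 : j = i := Nat.eq_of_mul_eq_mul_left hA (Nat.add_right_cancel e2)
    have e8 : p = q := Prod.ext e3 (Prod.ext e6 e5)
    rw [e8, e7]
  have key : ∀ s, s < L → ∀ x ∈ S, cmp L s ((c x.1 : PowerSeries (ZMod 2)) *
      PowerSeries.X ^ (x.1.2.2 * x.2)) = 0 := by
    intro s hs
    set w : (Σ _ : ℕ × ℕ × ℕ, ℕ) → PowerSeries (ZMod 2) := fun x =>
      cmp L s ((c x.1 : PowerSeries (ZMod 2)) * PowerSeries.X ^ (x.1.2.2 * x.2)) with hw
    have hrel : ∑ x ∈ S, w x * Pool.Agent.Work.P57.LI.F (φ x) = cmp L s d := by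
      rw [← h, map_sum, hS, Finset.sum_sigma]
      refine Finset.sum_congr rfl fun p hp => ?_
      have h1 := G_eq p.1 p.2.1 p.2.2 (L / p.2.2) (hI p hp).2.2.2.2 (hlpos p hp)
      have h2 : ((p.1, p.2.1, p.2.2) : ℕ × ℕ × ℕ) = p := rfl
      rw [h2] at h1
      rw [h1, Finset.mul_sum, map_sum, hdvd p hp]
      refine Finset.sum_congr rfl fun j _ => ?_
      rw [← mul_assoc, cmp_mul L s hL hs]
    have hinv : ∀ x ∈ S, Function.invFunOn φ (S : Set (Σ _ : ℕ × ℕ × ℕ, ℕ)) (φ x) = x :=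
      fun x hx => hinj.leftInvOn_invFunOn (Finset.mem_coe.2 hx)
    have h3 := Pool.Agent.Work.P57.LI.indep2' (S.image φ) (by
        intro P hP
        obtain ⟨x, hx, rfl⟩ := Finset.mem_image.1 hP
        rw [hS, Finset.mem_sigma, Finset.mem_range] at hx
        obtain ⟨q1, ⟨v, hv⟩, q3, q4, q5⟩ := hI x.1 hx.1
        simp only [hφ]
        refine ⟨Nat.mul_pos q1 (hlpos x.1 hx.1), ⟨v * (L / x.1.2.2), by rw [hv, Nat.mul_assoc]⟩, ?_⟩
        have h5 : (x.1.1 * x.2 + x.1.2.1) % 4 = x.1.2.1 % 4 := by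
          rw [hv, Nat.mul_assoc, Nat.mul_add_mod]
        rw [h5]
        exact q3)
      (by
        intro P hP
        obtain ⟨x, hx, rfl⟩ := Finset.mem_image.1 hP
        rw [hS, Finset.mem_sigma, Finset.mem_range] at hx
        have q4 := (hI x.1 hx.1).2.2.2.1
        simp only [hφ]
        calc x.1.1 * x.2 + x.1.2.1 < x.1.1 * x.2 + x.1.1 := by omega
          _ = x.1.1 * (x.2 + 1) := by ring
          _ ≤ x.1.1 * (L / x.1.2.2) := Nat.mul_le_mul_left _ hx.2)
      (fun P => w (Function.invFunOn φ (S : Set (Σ _ : ℕ × ℕ × ℕ, ℕ)) P)) (by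
        intro P hP
        obtain ⟨x, hx, rfl⟩ := Finset.mem_image.1 hP
        rw [hinv x hx, hw]
        simp only
        have h6 : (c x.1 : PowerSeries (ZMod 2)) * PowerSeries.X ^ (x.1.2.2 * x.2) =
            ((c x.1 * Polynomial.X ^ (x.1.2.2 * x.2) : Polynomial (ZMod 2)) :
              PowerSeries (ZMod 2)) := by
          rw [Polynomial.coe_mul, Polynomial.coe_pow, Polynomial.coe_X]
        rw [h6]
        exact cmp_alg L s hL _)
      (by
        rw [Finset.sum_image hinj, Finset.sum_congr rfl fun x hx => by rw [hinv x hx], hrel]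
        exact cmp_alg L s hL d)
    intro x hx
    have h7 := h3 (φ x) (Finset.mem_image_of_mem _ hx)
    rw [hinv x hx] at h7
    exact h7
  intro p hp
  ext e
  have h8 := key (e % L) (Nat.mod_lt _ hL) ⟨p, 0⟩ (by
    rw [hS, Finset.mem_sigma, Finset.mem_range]
    exact ⟨hp, hlpos p hp⟩)
  simp only [Nat.mul_zero, pow_zero, mul_one] at h8
  have h9 := congrArg (PowerSeries.coeff (e / L)) h8
  rw [coeff_cmp, Nat.div_add_mod, Polynomial.coeff_coe, map_zero] at h9
  rw [h9, Polynomial.coeff_zero]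

end Pool.Agent.Results.MP_57720d_nt.MahlerIndependence
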